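import Pool.Agent.H221R2.WTree

/-!
# Rooted trees given by a parent function, and their path metrics
-/

set_option autoImplicit false

namespace Pool.Agent.Q323.PCG

open Pool.Agent.H221R2.WTree SimpleGraph

/-- A rooted tree: the root, the parent function, the ancestor test and a rank function. -/
structure Rooted (W : Type) where
  r : W
  par : W → W
  A : W → W → Bool
  rk : W → ℕ
  hrk : ∀ x, x ≠ r → rk (par x) < rk x
  h1 : ∀ z, z ≠ r → A z z = true
  h2 : ∀ z, z ≠ r → A z (par z) = false
  h3 : ∀ z x, z ≠ r → x ≠ r → z ≠ x → A z x = A z (par x)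

variable {W : Type} (R : Rooted W)

/-- The tree. -/
def Rooted.T : SimpleGraph W where
  Adj x y := (x ≠ R.r ∧ R.par x = y) ∨ (y ≠ R.r ∧ R.par y = x)
  symm := ⟨fun _ _ h => h.symm⟩
  loopless := ⟨fun x h => by
    rcases h with ⟨h, h'⟩ | ⟨h, h'⟩ <;> (have := R.hrk x h; rw [h'] at this; omega)⟩

theorem Rooted.e_inj {z z' : W} (hz : z ≠ R.r) (hz' : z' ≠ R.r)
    (h : s(z, R.par z) = s(z', R.par z')) : z = z' := by
  rw [Sym2.eq_iff] at h
  rcases h with ⟨h, _⟩ | ⟨h, h'⟩
  · exact h
  · have a1 := R.hrk z hz
    have a2 := R.hrk z' hz'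
    rw [h'] at a1
    rw [← h] at a2
    omega

theorem Rooted.adj_cases {x y : W} (h : R.T.Adj x y) :
    ∃ z, z ≠ R.r ∧ s(x, y) = s(z, R.par z) ∧ ∀ u, u ≠ R.r → (R.A u x = R.A u y ↔ u ≠ z) := by
  have key : ∀ z, z ≠ R.r → ∀ u, u ≠ R.r → (R.A u z = R.A u (R.par z) ↔ u ≠ z) := by
    intro z hz u hu
    constructor
    · rintro h rfl
      rw [R.h1 u hu, R.h2 u hu] at h
      exact absurd h (by simp)
    · intro h
      exact R.h3 u z hu hz h
  rcases h with ⟨hx, rfl⟩ | ⟨hy, rfl⟩
  · exact ⟨x, hx, rfl, key x hx⟩
  · refine ⟨y, hy, Sym2.eq_swap, fun u hu => ?_⟩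
    rw [← key y hy u hu]
    exact eq_comm

section
open Classical

theorem Rooted.parity {z : W} (hz : z ≠ R.r) : ∀ {x y : W} (p : R.T.Walk x y),
    (p.edges.count s(z, R.par z)) % 2 = if R.A z x = R.A z y then 0 else 1 := by
  intro x y p
  induction p with
  | nil => simp
  | cons h p ih =>
    rename_i x x' y
    obtain ⟨u, hu, he, hA⟩ := R.adj_cases h
    rw [Walk.edges_cons, List.count_cons, he]
    have h3 := hA z hz
    by_cases hzu : z = u
    · subst hzu
      have h4 : R.A z x ≠ R.A z x' := fun h5 => (h3.1 h5) rfl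
      have h6 : (R.A z x = R.A z y) ↔ ¬ (R.A z x' = R.A z y) := by
        generalize R.A z x = a at *
        generalize R.A z x' = b at *
        generalize R.A z y = c at *
        cases a <;> cases b <;> cases c <;> simp_all
      simp only [beq_self_eq_true, if_true]
      by_cases h7 : R.A z x' = R.A z y
      · rw [if_pos h7] at ih
        rw [if_neg (by rw [h6]; exact not_not.2 h7)]
        omega
      · rw [if_neg h7] at ih
        rw [if_pos (h6.2 h7)]
        omega
    · have h4 : R.A z x = R.A z x' := h3.2 hzu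
      have h5 : ¬ (s(u, R.par u) = s(z, R.par z)) := fun h => hzu (R.e_inj hu hz h).symm
      rw [if_neg (by simpa using h5), add_zero, ih, h4]

theorem Rooted.acyclic : R.T.IsAcyclic := by
  intro x c hc
  have hne : c.edges ≠ [] := by
    intro h
    have := hc.not_nil
    cases c with
    | nil => exact this Walk.Nil.nil
    | cons h p => simp at h
  obtain ⟨e, he⟩ := List.exists_mem_of_ne_nil _ hne
  have he' : e ∈ R.T.edgeSet := c.edges_subset_edgeSet he
  induction e using Sym2.ind with
  | _ a b =>
    obtain ⟨z, hz, hez, _⟩ := R.adj_cases he'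
    rw [hez] at he
    have h1 := R.parity hz c
    rw [if_pos rfl] at h1
    have h2 : c.edges.Nodup := hc.isCircuit.isTrail.edges_nodup
    rw [List.count_eq_one_of_mem h2 he] at h1
    omega

theorem Rooted.connected : R.T.Connected := by
  have key : ∀ n : ℕ, ∀ x : W, R.rk x ≤ n → R.T.Reachable R.r x := by
    intro n
    induction n with
    | zero =>
      intro x hx
      by_cases h : x = R.r
      · subst h; exact Reachable.refl _
      · have := R.hrk x h
        omega
    | succ n ih =>
      intro x hx
      by_cases h : x = R.r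
      · subst h; exact Reachable.refl _
      · have h1 := R.hrk x h
        refine (ih (R.par x) (by omega)).trans (Adj.reachable ?_)
        exact Or.inr ⟨h, rfl⟩
  haveI : Nonempty W := ⟨R.r⟩
  exact ⟨fun x y => (key _ x le_rfl).symm.trans (key _ y le_rfl)⟩

theorem Rooted.isTree : R.T.IsTree := ⟨R.connected, R.acyclic⟩

/-- The distance function. -/
noncomputable def Rooted.D [Fintype W] (wt : W → ℝ) (x y : W) : ℝ :=
  ∑ z : W, if z ≠ R.r ∧ R.A z x ≠ R.A z y then wt z else 0

/-- The weight function on the edges. -/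
noncomputable def Rooted.w (wt : W → ℝ) : Sym2 W → ℝ :=
  Function.extend (fun z : {z // z ≠ R.r} => s(z.1, R.par z.1)) (fun z => wt z.1) 0

theorem Rooted.w_e (wt : W → ℝ) {z : W} (hz : z ≠ R.r) : R.w wt s(z, R.par z) = wt z := by
  have hinj : Function.Injective (fun z : {z // z ≠ R.r} => s(z.1, R.par z.1)) :=
    fun a b h => Subtype.ext (R.e_inj a.2 b.2 h)
  exact hinj.extend_apply (fun z => wt z.1) 0 ⟨z, hz⟩

theorem Rooted.sum_walk [Fintype W] (wt : W → ℝ) : ∀ {x y : W} (p : R.T.Walk x y),
    (p.edges.map (R.w wt)).sum =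
      ∑ z : W, if z ≠ R.r then ((p.edges.count s(z, R.par z) : ℕ) : ℝ) * wt z else 0 := by
  intro x y p
  induction p with
  | nil => simp
  | cons h p ih =>
    rename_i x x' y
    obtain ⟨u, hu, he, hA⟩ := R.adj_cases h
    rw [Walk.edges_cons, List.map_cons, List.sum_cons, ih, he, R.w_e wt hu]
    have h1 : wt u = ∑ z : W, if z = u then wt z else 0 := by simp
    rw [h1, ← Finset.sum_add_distrib]
    refine Finset.sum_congr rfl fun z _ => ?_
    by_cases hz : z = R.r
    · have h2 : z ≠ u := by rintro rfl; exact hu hz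
      simp [hz, h2]
      intro h3
      exact absurd h3.symm hu
    · by_cases hzu : z = u
      · subst hzu
        rw [if_pos rfl, if_pos hz, if_pos hz, List.count_cons_self]
        push_cast
        ring
      · rw [if_neg hzu, if_pos hz, if_pos hz, List.count_cons_of_ne, zero_add]
        intro h
        exact hzu (R.e_inj hu hz h).symm

theorem Rooted.wt [Fintype W] (wt : W → ℝ) (hpos : ∀ z, z ≠ R.r → 0 < wt z) :
    WT R.T (R.w wt) (R.D wt) where
  tree := R.isTree
  pos := by
    intro e he
    induction e using Sym2.ind with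
    | _ a b =>
      obtain ⟨z, hz, hez, _⟩ := R.adj_cases he
      rw [hez, R.w_e wt hz]
      exact hpos z hz
  path := by
    intro x y p hp
    rw [R.sum_walk]
    unfold Rooted.D
    refine Finset.sum_congr rfl fun z _ => ?_
    by_cases hz : z = R.r
    · simp [hz]
    · have h1 := R.parity hz p
      have h2 : p.edges.count s(z, R.par z) ≤ 1 :=
        List.nodup_iff_count_le_one.1 hp.isTrail.edges_nodup _
      by_cases h3 : R.A z x = R.A z y
      · rw [if_pos h3] at h1
        have h4 : p.edges.count s(z, R.par z) = 0 := by omega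
        simp [h3, h4]
      · rw [if_neg h3] at h1
        have h4 : p.edges.count s(z, R.par z) = 1 := by omega
        simp [h3, h4, hz]

end

end Pool.Agent.Q323.PCG
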