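import Pool.Agent.Q323.PCG.Defs
import Pool.Agent.Q323.PCG.Rooted

/-!
# A 3-colouring gives a generalized PCG representation of the instance
-/

set_option autoImplicit false

namespace Pool.Agent.Q323.PCG

open Pool.Agent.H221R2.WTree SimpleGraph

/-! ### The skeleton of the tree -/

/-- Parents. -/
def parS (s : Fin 21) : Fin 21 :=
  ![0, 0, 0, 0, 0, 1, 2, 3, 4, 1, 1, 3, 3, 1, 2, 3, 4, 1, 2, 3, 4] s

/-- Weights. -/
def wS (s : Fin 21) : ℕ :=
  ![0, 10, 10, 10, 10, 22, 19, 22, 18, 23, 21, 21, 23, 2, 2, 2, 2, 2, 2, 2, 2] s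

/-- Depth. -/
def dS (s : Fin 21) : ℕ :=
  ![0, 1, 1, 1, 1, 2, 2, 2, 2, 2, 2, 2, 2, 2, 2, 2, 2, 2, 2, 2, 2] s

/-- Ancestors. -/
def AS (z x : Fin 21) : Bool := decide (z = x ∨ z = parS x)

theorem dS_lt : ∀ s : Fin 21, s ≠ 0 → dS (parS s) < dS s := by decide

theorem dS_le : ∀ s : Fin 21, dS s < 3 := by decide

theorem wS_pos : ∀ s : Fin 21, s ≠ 0 → 0 < wS s := by decide

theorem AS_1 : ∀ z : Fin 21, z ≠ 0 → AS z z = true := by decide

theorem AS_2 : ∀ z : Fin 21, z ≠ 0 → AS z (parS z) = false := by decide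

theorem AS_3 : ∀ z x : Fin 21, z ≠ 0 → x ≠ 0 → z ≠ x → AS z x = AS z (parS x) := by decide

/-- Distances in the skeleton. -/
def Dn (a b : Fin 21) : ℕ :=
  ((List.finRange 21).map (fun s => if s ≠ 0 ∧ AS s a ≠ AS s b then wS s else 0)).sum

theorem Dn_eq (a b : Fin 21) :
    Dn a b = ∑ s : Fin 21, if s ≠ 0 ∧ AS s a ≠ AS s b then wS s else 0 := by
  rw [Dn, Fin.sum_univ_def]

/-- Positions of the block vertices, depending on the colour. -/
def posL (c : Fin 3) (t : Fin 20) : Fin 21 :=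
  (![![5, 1, 13, 13, 17, 17, 9, 8, 8, 8, 1, 4, 13, 13, 17, 17, 16, 16, 20, 20],
    ![6, 2, 14, 14, 18, 18, 10, 10, 11, 11, 1, 3, 13, 13, 17, 17, 15, 15, 19, 19],
    ![7, 3, 15, 15, 19, 19, 8, 8, 8, 12, 4, 3, 16, 16, 20, 20, 15, 15, 19, 19]] :
      Fin 3 → Fin 20 → Fin 21) c t

/-- Positions of the global vertices. -/
def posG (g : Fin 25) : Fin 21 :=
  ![5, 6, 7, 0, 0, 1, 2, 3, 4, 5, 6, 7, 8, 9, 10, 11, 12, 13, 14, 15, 16, 17, 18, 19, 20] g

/-- Lengths of the pendant edges. -/
def lenL (t : Fin 20) : ℕ :=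
  ![1, 1, 30, 30, 30, 30, 1, 1, 1, 1, 1, 1, 30, 30, 30, 30, 30, 30, 30, 30] t

theorem lenL_pos : ∀ t : Fin 20, 0 < lenL t := by decide

/-- The required range. -/
def Ok (k : ℕ) : Prop := 30 ≤ k ∧ k ≤ 62

instance (k : ℕ) : Decidable (Ok k) := inferInstanceAs (Decidable (_ ∧ _))

theorem chk_LE : ∀ c : Fin 3, ∀ s t : Fin 20, s ≠ t → (s.1, t.1) ∈ LE →
    Ok (lenL s + lenL t + Dn (posL c s) (posL c t)) := by decide +kernel

theorem chk_LE' : ∀ c c' : Fin 3, c ≠ c' → ∀ s t : Fin 20, (s.1, t.1) ∈ LE' →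
    Ok (lenL s + lenL t + Dn (posL c s) (posL c' t)) := by decide +kernel

theorem chk_LG : ∀ c : Fin 3, ∀ s : Fin 20, ∀ g : Fin 25, (s.1, g.1) ∈ LG →
    Ok (lenL s + 1 + Dn (posL c s) (posG g)) := by decide +kernel

theorem chk_LGG : ∀ g g' : Fin 25, (g.1, g'.1) ∈ LGG →
    Ok (1 + 1 + Dn (posG g) (posG g')) := by decide +kernel

theorem chk_LS : ∀ c : Fin 3, ∀ s t : Fin 20, s ≠ t → (s.1, t.1) ∈ LS →
    ¬ Ok (lenL s + lenL t + Dn (posL c s) (posL c t)) := by decide +kernel

theorem chk_LS' : ∀ c c' : Fin 3, c ≠ c' → ∀ s t : Fin 20, (s.1, t.1) ∈ LS' →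
    ¬ Ok (lenL s + lenL t + Dn (posL c s) (posL c' t)) := by decide +kernel

theorem chk_LSG : ∀ c : Fin 3, ∀ s : Fin 20, ∀ g : Fin 25, (s.1, g.1) ∈ LSG →
    ¬ Ok (lenL s + 1 + Dn (posL c s) (posG g)) := by decide +kernel

theorem posG_dm : ∀ s : Fin 21, ∃ g : Fin 25, posG g = s := by decide

/-! ### The tree -/

variable {V0 : Type}

/-- Positions. -/
def pos (c : V0 → Fin 3) : PV V0 → Fin 21
  | .loc x t => posL (c x) t
  | .glob g => posG g

/-- Lengths of the pendant edges. -/
def len : PV V0 → ℕ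
  | .loc _ t => lenL t
  | .glob _ => 1

theorem len_pos (v : PV V0) : 0 < len v := by
  cases v with
  | loc x t => exact lenL_pos t
  | glob g => exact Nat.one_pos

variable [DecidableEq V0]

/-- The rooted tree. -/
def tree (c : V0 → Fin 3) : Rooted (Fin 21 ⊕ PV V0) where
  r := Sum.inl 0
  par
    | .inl s => .inl (parS s)
    | .inr v => .inl (pos c v)
  A
    | .inl z, .inl x => AS z x
    | .inl z, .inr v => AS z (pos c v)
    | .inr _, .inl _ => false
    | .inr u, .inr v => decide (u = v)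
  rk
    | .inl s => dS s
    | .inr _ => 3
  hrk := by
    rintro (s | v) h
    · exact dS_lt s (fun h' => h (by rw [h']))
    · exact dS_le _
  h1 := by
    rintro (s | v) h
    · exact AS_1 s (fun h' => h (by rw [h']))
    · simp
  h2 := by
    rintro (s | v) h
    · exact AS_2 s (fun h' => h (by rw [h']))
    · rfl
  h3 := by
    rintro (s | v) (t | u) h h' hne
    · exact AS_3 s t (fun h' => h (by rw [h'])) (fun h => h' (by rw [h]))
        (fun h => hne (by rw [h]))
    · rfl
    · rfl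
    · exact decide_eq_false (fun h => hne (by rw [h]))

/-- The weights. -/
def wt : Fin 21 ⊕ PV V0 → ℝ
  | .inl s => wS s
  | .inr v => len v

theorem wt_pos (c : V0 → Fin 3) : ∀ z, z ≠ (tree c).r → 0 < wt z := by
  rintro (s | v) h
  · have := wS_pos s (fun h' => h (by rw [h']; rfl))
    simp only [wt]
    exact_mod_cast this
  · have := len_pos v
    simp only [wt]
    exact_mod_cast this

theorem dist_leaf (c : V0 → Fin 3) [Fintype (PV V0)] {u v : PV V0} (huv : u ≠ v) :
    (tree c).D wt (.inr u) (.inr v) = ((len u + len v + Dn (pos c u) (pos c v) : ℕ) : ℝ) := by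
  unfold Rooted.D
  rw [Fintype.sum_sum_type]
  have h1 : (∑ s : Fin 21, if (Sum.inl s : Fin 21 ⊕ PV V0) ≠ (tree c).r ∧
      (tree c).A (.inl s) (.inr u) ≠ (tree c).A (.inl s) (.inr v) then wt (.inl s : Fin 21 ⊕ PV V0)
      else 0) = ((Dn (pos c u) (pos c v) : ℕ) : ℝ) := by
    rw [Dn_eq]
    push_cast
    refine Finset.sum_congr rfl fun s _ => ?_
    have h2 : ((Sum.inl s : Fin 21 ⊕ PV V0) ≠ (tree c).r ∧
      (tree c).A (.inl s) (.inr u) ≠ (tree c).A (.inl s) (.inr v)) ↔
        (s ≠ 0 ∧ AS s (pos c u) ≠ AS s (pos c v)) := by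
      simp only [tree, ne_eq, Sum.inl.injEq]
    by_cases h3 : s ≠ 0 ∧ AS s (pos c u) ≠ AS s (pos c v)
    · rw [if_pos (h2.2 h3), if_pos h3]
      rfl
    · rw [if_neg (fun h => h3 (h2.1 h)), if_neg h3]
  have h2 : (∑ z : PV V0, if (Sum.inr z : Fin 21 ⊕ PV V0) ≠ (tree c).r ∧
      (tree c).A (.inr z) (.inr u) ≠ (tree c).A (.inr z) (.inr v) then wt (.inr z : Fin 21 ⊕ PV V0)
      else 0) = (len u : ℝ) + (len v : ℝ) := by
    have h3 : ∀ z : PV V0, (if (Sum.inr z : Fin 21 ⊕ PV V0) ≠ (tree c).r ∧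
        (tree c).A (.inr z) (.inr u) ≠ (tree c).A (.inr z) (.inr v) then
          wt (.inr z : Fin 21 ⊕ PV V0) else 0) =
        (if z = u then (len z : ℝ) else 0) + (if z = v then (len z : ℝ) else 0) := by
      intro z
      by_cases h4 : z = u
      · subst h4
        simp [tree, wt, huv]
      · by_cases h5 : z = v
        · subst h5
          simp [tree, wt, h4]
        · simp [tree, h4, h5]
    rw [Finset.sum_congr rfl (fun z _ => h3 z), Finset.sum_add_distrib]
    simp
  have h5 := congrArg₂ (· + ·) h1 h2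
  refine Eq.trans ?_ (h5.trans (by push_cast; ring))
  congr! 3

theorem leaf_iff (c : V0 → Fin 3) (x : Fin 21 ⊕ PV V0) :
    IsLeaf (tree c).T x ↔ ∃ v : PV V0, (Sum.inr v : Fin 21 ⊕ PV V0) = x := by
  constructor
  · intro h
    rcases x with s | v
    · exfalso
      obtain ⟨g, hg⟩ := posG_dm s
      have e1 : (tree c).T.Adj (.inl s) (.inr (.glob g)) :=
        Or.inr ⟨by simp [tree], by simp [tree, pos, hg]⟩
      by_cases hs : s = 0
      · subst hs
        have e2 : (tree c).T.Adj (.inl 0) (.inl 1) :=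
          Or.inr ⟨by simp [tree], by simp [tree]; decide⟩
        have := h _ _ e1 e2
        exact absurd this (by simp)
      · have e2 : (tree c).T.Adj (.inl s) (.inl (parS s)) :=
          Or.inl ⟨by simpa [tree] using hs, rfl⟩
        have := h _ _ e1 e2
        exact absurd this (by simp)
    · exact ⟨v, rfl⟩
  · rintro ⟨v, rfl⟩
    have key : ∀ y, (tree c).T.Adj (.inr v) y → y = .inl (pos c v) := by
      intro y hy
      rcases hy with ⟨_, h⟩ | ⟨_, h⟩
      · exact h.symm
      · exfalso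
        rcases y with s | u
        · exact absurd h (by simp [tree])
        · exact absurd h (by simp [tree])
    intro y z hy hz
    rw [key y hy, key z hz]

theorem genPCG_of_colour {γ : V0 → V0 → Prop} [Finite V0] (c : V0 → Fin 3)
    (hc : ∀ x y, γ x y → c x ≠ c y) : GenPCG (relG (incE γ)) (relG (incS γ)) := by
  classical
  have := Fintype.ofFinite V0
  have : Fintype (PV V0) := Fintype.ofEquiv ((V0 × Fin 20) ⊕ Fin 25)
    { toFun := fun s => s.elim (fun p => .loc p.1 p.2) (fun g => .glob g)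
      invFun := fun v => match v with
        | .loc x t => .inl (x, t)
        | .glob g => .inr g
      left_inv := by rintro (⟨x, t⟩ | g) <;> rfl
      right_inv := by rintro (⟨x, t⟩ | g) <;> rfl }
  have hwt := (tree c).wt wt (wt_pos c)
  have hincE : ∀ u v : PV V0, u ≠ v → incE γ u v → Ok (len u + len v + Dn (pos c u) (pos c v)) := by
    intro u v hne h
    cases u with
    | loc x s =>
      cases v with
      | loc y t =>
        rcases h with ⟨rfl, h⟩ | ⟨h, h'⟩
        · exact chk_LE (c x) s t (fun h' => hne (by rw [h'])) h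
        · exact chk_LE' (c x) (c y) (hc x y h) s t h'
      | glob g => exact chk_LG (c x) s g h
    | glob g =>
      cases v with
      | loc y t => exact absurd h id
      | glob g' => exact chk_LGG g g' h
  have hincS : ∀ u v : PV V0, u ≠ v → incS γ u v →
      ¬ Ok (len u + len v + Dn (pos c u) (pos c v)) := by
    intro u v hne h
    cases u with
    | loc x s =>
      cases v with
      | loc y t =>
        rcases h with ⟨rfl, h⟩ | ⟨h, h'⟩
        · exact chk_LS (c x) s t (fun h' => hne (by rw [h'])) h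
        · exact chk_LS' (c x) (c y) (hc x y h) s t h'
      | glob g => exact chk_LSG (c x) s g h
    | glob g =>
      cases v with
      | loc y t => exact absurd h id
      | glob g' => exact absurd h id
  have hok : ∀ u v : PV V0, u ≠ v → (Ok (len u + len v + Dn (pos c u) (pos c v)) ↔
      (30 : ℝ) ≤ (tree c).D wt (.inr u) (.inr v) ∧ (tree c).D wt (.inr u) (.inr v) ≤ 62) := by
    intro u v hne
    rw [dist_leaf c hne]
    unfold Ok
    constructor
    · rintro ⟨h1, h2⟩
      exact ⟨by exact_mod_cast h1, by exact_mod_cast h2⟩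
    · rintro ⟨h1, h2⟩
      exact ⟨by exact_mod_cast h1, by exact_mod_cast h2⟩
  refine ⟨Fin 21 ⊕ PV V0, inferInstance, (tree c).T, (tree c).w wt, (tree c).D wt, Sum.inr,
    30, 62, hwt.tree, hwt.pos, hwt.path, Sum.inr_injective, leaf_iff c, by norm_num, by norm_num,
    ?_, ?_⟩
  · rintro u v ⟨hne, h | h⟩
    · exact (hok u v hne).1 (hincE u v hne h)
    · have := (hok v u hne.symm).1 (hincE v u hne.symm h)
      rw [hwt.symm]
      exact this
  · rintro u v ⟨hne, h | h⟩
    · exact fun h' => hincS u v hne h ((hok u v hne).2 h')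
    · intro h'
      rw [hwt.symm] at h'
      exact hincS v u hne.symm h ((hok v u hne.symm).2 h')

end Pool.Agent.Q323.PCG
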