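import Pool.Agent.Q323.PCG.Red

/-!
# Correctness of the reduction to generalized PCG recognition
-/

set_option autoImplicit false

namespace Pool.Agent.Q323.PCG

open Pool.Agent.NPC Pool.Agent.H622R2 Pool.Agent.Q323.Box Pool.Agent.H692R2 Pool.Agent.H673R2

/-- The labels. -/
noncomputable def matEquiv {α : Type} [DecidableEq α] (vs : List α) (a1 : α → α → Bool)
    (hnd : vs.Nodup) : Fin (mat vs a1).length ≃ {x // x ∈ vs} :=
  (finCongr (mat_length vs a1)).trans (List.Nodup.getEquiv vs hnd)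

theorem pairG_mat_iff {α : Type} [DecidableEq α] (vs : List α) (a1 a2 : α → α → Bool)
    (hnd : vs.Nodup) (i j : Fin (mat vs a1).length) :
    (pairG (mat vs a1).length (mat vs a2)).Adj i j ↔
      (labGraph vs a2).Adj (matEquiv vs a1 hnd i) (matEquiv vs a1 hnd j) := by
  simp only [labGraph, pairG, matEquiv, Equiv.trans_apply, List.Nodup.getEquiv, Equiv.coe_fn_mk,
    finCongr_apply]
  have ha : i.1 < vs.length := lt_of_lt_of_eq i.2 (mat_length vs a1)
  have hb : j.1 < vs.length := lt_of_lt_of_eq j.2 (mat_length vs a1)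
  rw [entry_mat _ _ _ _ ha hb, entry_mat _ _ _ _ hb ha]
  have h1 : (⟨vs.get (Fin.cast (mat_length vs a1) i), List.get_mem _ _⟩ : {x // x ∈ vs}) ≠
      ⟨vs.get (Fin.cast (mat_length vs a1) j), List.get_mem _ _⟩ ↔ i ≠ j := by
    rw [not_iff_not, Subtype.mk.injEq, hnd.injective_get.eq_iff]
    simp [Fin.ext_iff]
  constructor
  · rintro ⟨h, h'⟩
    exact ⟨h1.2 h, h'⟩
  · rintro ⟨h, h'⟩
    exact ⟨h1.1 h, h'⟩

/-- The ends of edges. -/
abbrev V0 (E : List (ℕ × ℕ)) : Type := Fin E.length × Fin 2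

/-- Adjacency of ends of edges. -/
def gm (E : List (ℕ × ℕ)) (x y : V0 E) : Prop := gam E (x.1.1, x.2.1) (y.1.1, y.2.1) = true

theorem gm_iff (E : List (ℕ × ℕ)) (x y : V0 E) : gm E x y ↔ ∃ e ∈ E,
    (e.1 = lab E (x.1.1, x.2.1) ∧ e.2 = lab E (y.1.1, y.2.1) ∨
      e.1 = lab E (y.1.1, y.2.1) ∧ e.2 = lab E (x.1.1, x.2.1)) := by
  simp only [gm, gam, List.any_eq_true, decide_eq_true_eq]

theorem gm_symm (E : List (ℕ × ℕ)) (x y : V0 E) (h : gm E x y) : gm E y x := by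
  rw [gm_iff] at *
  obtain ⟨e, he, h⟩ := h
  exact ⟨e, he, h.symm⟩

theorem gm_irrefl {E : List (ℕ × ℕ)} (hE : Loopless E) (x : V0 E) : ¬ gm E x x := by
  rw [gm_iff]
  rintro ⟨e, he, ⟨h1, h2⟩ | ⟨h1, h2⟩⟩
  · exact hE e he (h1.trans h2.symm)
  · exact hE e he (h1.trans h2.symm)

theorem col_iff (E : List (ℕ × ℕ)) :
    Col 3 E ↔ ∃ c : V0 E → Fin 3, ∀ x y, gm E x y → c x ≠ c y := by
  classical
  constructor
  · rintro ⟨c, hc⟩
    refine ⟨fun x => c (lab E (x.1.1, x.2.1)), fun x y h => ?_⟩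
    rw [gm_iff] at h
    obtain ⟨e, he, ⟨h1, h2⟩ | ⟨h1, h2⟩⟩ := h
    · change c (lab E (x.1.1, x.2.1)) ≠ c (lab E (y.1.1, y.2.1))
      rw [← h1, ← h2]
      exact hc e he
    · change c (lab E (x.1.1, x.2.1)) ≠ c (lab E (y.1.1, y.2.1))
      rw [← h1, ← h2]
      exact (hc e he).symm
  · rintro ⟨c, hc⟩
    refine ⟨fun l => if h : ∃ x : V0 E, lab E (x.1.1, x.2.1) = l then c h.choose else 0, ?_⟩
    intro e he
    obtain ⟨j, hj, hje⟩ := List.getElem_of_mem he
    have e0 : E.getD j (0, 0) = e := by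
      rw [List.getD_eq_getElem?_getD, List.getElem?_eq_getElem hj]
      exact hje
    have h1 : ∃ x : V0 E, lab E (x.1.1, x.2.1) = e.1 := ⟨(⟨j, hj⟩, 0), congrArg Prod.fst e0⟩
    have h2 : ∃ x : V0 E, lab E (x.1.1, x.2.1) = e.2 := ⟨(⟨j, hj⟩, 1), congrArg Prod.snd e0⟩
    simp only []
    rw [dif_pos h1, dif_pos h2]
    refine hc _ _ ((gm_iff E _ _).2 ⟨e, he, Or.inl ⟨h1.choose_spec.symm, h2.choose_spec.symm⟩⟩)

/-- Labels of the vertices. -/
def enc {E : List (ℕ × ℕ)} : PV (V0 E) → LabN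
  | .loc x t => (t.1, x.1.1, x.2.1)
  | .glob g => (20, g.1, 0)

theorem enc_injective {E : List (ℕ × ℕ)} : Function.Injective (enc : PV (V0 E) → LabN) := by
  rintro (⟨⟨i, j⟩, t⟩ | g) (⟨⟨i', j'⟩, t'⟩ | g') h
  · simp only [enc, Prod.mk.injEq, Fin.val_inj] at h
    obtain ⟨rfl, rfl, rfl⟩ := h
    rfl
  · simp only [enc, Prod.mk.injEq] at h
    have := t.2
    omega
  · simp only [enc, Prod.mk.injEq] at h
    have := t'.2
    omega
  · simp only [enc, Prod.mk.injEq, Fin.val_inj, true_and, and_true] at h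
    rw [h]

/-- The list of the valid labels. -/
def vsL (E : List (ℕ × ℕ)) : List LabN := (box 21 (E.length + 25)).filter (valid E)

theorem vsL_nodup (E : List (ℕ × ℕ)) : (vsL E).Nodup := (nodup_box _ _).filter _

theorem mem_vsL (E : List (ℕ × ℕ)) (x : LabN) : x ∈ vsL E ↔ ∃ v : PV (V0 E), enc v = x := by
  obtain ⟨k, i, j⟩ := x
  rw [vsL, List.mem_filter, mem_box]
  simp only [valid, decide_eq_true_eq]
  constructor
  · rintro ⟨_, ⟨h1, h2, h3⟩ | ⟨rfl, h2, rfl⟩⟩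
    · exact ⟨.loc (⟨i, h2⟩, ⟨j, h3⟩) ⟨k, h1⟩, rfl⟩
    · exact ⟨.glob ⟨i, h2⟩, rfl⟩
  · rintro ⟨⟨⟨i', j'⟩, t⟩ | g, h⟩
    · simp only [enc, Prod.mk.injEq] at h
      obtain ⟨rfl, rfl, rfl⟩ := h
      have := i'.2
      have := j'.2
      have := t.2
      omega
    · simp only [enc, Prod.mk.injEq] at h
      obtain ⟨rfl, rfl, rfl⟩ := h
      have := g.2
      omega

/-- The vertices of the instance and the labels. -/
noncomputable def eqv (E : List (ℕ × ℕ)) : PV (V0 E) ≃ {x // x ∈ vsL E} :=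
  Equiv.ofBijective (fun v => ⟨enc v, (mem_vsL E _).2 ⟨v, rfl⟩⟩)
    ⟨fun u v h => enc_injective (congrArg Subtype.val h), fun ⟨x, hx⟩ => by
      obtain ⟨v, rfl⟩ := (mem_vsL E x).1 hx
      exact ⟨v, rfl⟩⟩

theorem memL_iff (L : List (ℕ × ℕ)) (a b : ℕ) : memL L a b = true ↔ (a, b) ∈ L := by
  unfold memL
  exact decide_eq_true_iff

theorem incE_iff (E : List (ℕ × ℕ)) (u v : PV (V0 E)) :
    incE (gm E) u v ↔ adjE E (enc u) (enc v) = true := by
  have h20 : ∀ t : Fin 20, (t : ℕ) ≠ 20 := fun t => by have := t.2; omega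
  rcases u with ⟨⟨i, j⟩, s⟩ | g <;> rcases v with ⟨⟨i', j'⟩, t⟩ | g'
  · simp [incE, adjE, enc, h20, memL_iff, gm, Prod.ext_iff, Fin.ext_iff]
  · simp [incE, adjE, enc, h20, memL_iff]
  · simp [incE, adjE, enc, h20, memL_iff]
  · simp [incE, adjE, enc, memL_iff]

theorem incS_iff (E : List (ℕ × ℕ)) (u v : PV (V0 E)) :
    incS (gm E) u v ↔ adjS E (enc u) (enc v) = true := by
  have h20 : ∀ t : Fin 20, (t : ℕ) ≠ 20 := fun t => by have := t.2; omega
  rcases u with ⟨⟨i, j⟩, s⟩ | g <;> rcases v with ⟨⟨i', j'⟩, t⟩ | g'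
  · simp [incS, adjS, enc, h20, memL_iff, gm, Prod.ext_iff, Fin.ext_iff]
  · simp [incS, adjS, enc, memL_iff]
  · simp [incS, adjS, enc, h20, memL_iff]
  · simp [incS, adjS, enc, memL_iff]

/-- The vertices of the instance and the rows of the matrices. -/
noncomputable def eqv2 (E : List (ℕ × ℕ)) : PV (V0 E) ≃ Fin (red E).1.length :=
  (eqv E).trans (matEquiv (vsL E) (adjE E) (vsL_nodup E)).symm

theorem eqv2_spec (E : List (ℕ × ℕ)) (u : PV (V0 E)) :
    matEquiv (vsL E) (adjE E) (vsL_nodup E) (eqv2 E u) = eqv E u :=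
  Equiv.apply_symm_apply _ _

theorem adjE_iff (E : List (ℕ × ℕ)) (u v : PV (V0 E)) : (relG (incE (gm E))).Adj u v ↔
    (pairG (red E).1.length (red E).1).Adj (eqv2 E u) (eqv2 E v) := by
  have h := pairG_mat_iff (vsL E) (adjE E) (adjE E) (vsL_nodup E) (eqv2 E u) (eqv2 E v)
  rw [eqv2_spec, eqv2_spec] at h
  refine Iff.trans ?_ h.symm
  change (u ≠ v ∧ _) ↔ (eqv E u ≠ eqv E v ∧ _)
  rw [(eqv E).injective.ne_iff, incE_iff, incE_iff]
  exact Iff.rfl

theorem adjS_iff (E : List (ℕ × ℕ)) (u v : PV (V0 E)) : (relG (incS (gm E))).Adj u v ↔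
    (pairG (red E).1.length (red E).2).Adj (eqv2 E u) (eqv2 E v) := by
  have h := pairG_mat_iff (vsL E) (adjE E) (adjS E) (vsL_nodup E) (eqv2 E u) (eqv2 E v)
  rw [eqv2_spec, eqv2_spec] at h
  refine Iff.trans ?_ h.symm
  change (u ≠ v ∧ _) ↔ (eqv E u ≠ eqv E v ∧ _)
  rw [(eqv E).injective.ne_iff, incS_iff, incS_iff]
  exact Iff.rfl

theorem red_correct {E : List (ℕ × ℕ)} (hE : Loopless E) : Col 3 E ↔ GenPCGMat (red E) := by
  rw [col_iff]
  constructor
  · rintro ⟨c, hc⟩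
    exact (genPCG_of_colour c hc).of_equiv (eqv2 E) (adjE_iff E) (adjS_iff E)
  · intro h
    refine colour_of_genPCG (gm_symm E) (gm_irrefl hE)
      (h.of_equiv (eqv2 E).symm (fun u v => ?_) (fun u v => ?_))
    · rw [adjE_iff, Equiv.apply_symm_apply, Equiv.apply_symm_apply]
    · rw [adjS_iff, Equiv.apply_symm_apply, Equiv.apply_symm_apply]

theorem dis1 : ∀ s t : Fin 20, ((s.1, t.1) ∈ LE ∨ (t.1, s.1) ∈ LE) →
    ¬ ((s.1, t.1) ∈ LS ∨ (t.1, s.1) ∈ LS) := by decide +kernel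

theorem dis2 : ∀ s t : Fin 20, ((s.1, t.1) ∈ LE' ∨ (t.1, s.1) ∈ LE') →
    ¬ ((s.1, t.1) ∈ LS' ∨ (t.1, s.1) ∈ LS') := by decide +kernel

theorem dis3 : ∀ (s : Fin 20) (g : Fin 25), (s.1, g.1) ∈ LG → ¬ (s.1, g.1) ∈ LSG := by
  decide +kernel

theorem disjoint_inc {V0 : Type} {γ : V0 → V0 → Prop} (hγ : ∀ x, ¬ γ x x) (u v : PV V0)
    (h : incE γ u v ∨ incE γ v u) : ¬ (incS γ u v ∨ incS γ v u) := by
  rcases u with ⟨x, s⟩ | g <;> rcases v with ⟨y, t⟩ | g'
  · by_cases hxy : x = y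
    · subst hxy
      simp only [incE, incS, hγ, false_and, or_false, true_and] at *
      exact dis1 s t h
    · have hyx : ¬ y = x := fun h => hxy h.symm
      simp only [incE, incS, hxy, hyx, false_and, false_or] at *
      intro h'
      refine dis2 s t ?_ ?_
      · rcases h with h | h
        · exact Or.inl h.2
        · exact Or.inr h.2
      · rcases h' with h | h
        · exact Or.inl h.2
        · exact Or.inr h.2
  · simp only [incE, incS, or_false] at *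
    exact dis3 s g' h
  · simp only [incE, incS, false_or] at *
    exact dis3 t g h
  · simp [incS]

theorem red_inst {E : List (ℕ × ℕ)} (hE : Loopless E) : IsInst (red E) := by
  constructor
  · simp [red, boxRed, mat]
  · intro i j h h'
    have h1 := (adjE_iff E ((eqv2 E).symm i) ((eqv2 E).symm j)).2 (by simpa using h)
    have h2 := (adjS_iff E ((eqv2 E).symm i) ((eqv2 E).symm j)).2 (by simpa using h')
    exact disjoint_inc (gm_irrefl hE) _ _ h1.2 h2.2

/-- Generalized PCG recognition is NP-hard. -/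
theorem hard : NPHardOn IsInst GenPCGMat :=
  npHardOn_of hardPr_col3 red_poly (fun _ h => red_inst h) (fun _ h => red_correct h)

end Pool.Agent.Q323.PCG
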