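import Pool.Agent.H221R2.WTree

/-!
# Generalized pairwise compatibility graph recognition: definitions
-/

set_option autoImplicit false

namespace Pool.Agent.Q323.PCG

open SimpleGraph

/-- `x` is a leaf of `T`: it has at most one neighbour. -/
def IsLeaf {W : Type} (T : SimpleGraph W) (x : W) : Prop := ∀ y z, T.Adj x y → T.Adj x z → y = z

/-- There are a finite tree `T` (vertex set `W`) whose edges carry positive weights `w`, a
bijection `leaf` of `V` with the set of leaves of `T`, and numbers `0 ≤ dmin ≤ dmax` such that the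
weighted distance `d` of the leaves of any two adjacent vertices of `G` is in `[dmin, dmax]`, and
the distance of the leaves of any two adjacent vertices of `S` is not in `[dmin, dmax]`. In other
words, `G` is a subgraph of `PCG(T, dmin, dmax)`, which contains no edge of `S`. -/
def GenPCG {V : Type} (G S : SimpleGraph V) : Prop :=
  ∃ (W : Type) (_ : Finite W) (T : SimpleGraph W) (w : Sym2 W → ℝ) (d : W → W → ℝ)
    (leaf : V → W) (dmin dmax : ℝ),
    T.IsTree ∧ (∀ e ∈ T.edgeSet, 0 < w e) ∧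
    (∀ (x y : W) (p : T.Walk x y), p.IsPath → d x y = (p.edges.map w).sum) ∧
    Function.Injective leaf ∧ (∀ x, IsLeaf T x ↔ ∃ v, leaf v = x) ∧
    0 ≤ dmin ∧ dmin ≤ dmax ∧
    (∀ u v, G.Adj u v → dmin ≤ d (leaf u) (leaf v) ∧ d (leaf u) (leaf v) ≤ dmax) ∧
    (∀ u v, S.Adj u v → ¬ (dmin ≤ d (leaf u) (leaf v) ∧ d (leaf u) (leaf v) ≤ dmax))

theorem GenPCG.of_equiv {V V' : Type} {G S : SimpleGraph V} {G' S' : SimpleGraph V'} (e : V ≃ V')
    (hG : ∀ u v, G.Adj u v ↔ G'.Adj (e u) (e v)) (hS : ∀ u v, S.Adj u v ↔ S'.Adj (e u) (e v))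
    (h : GenPCG G S) : GenPCG G' S' := by
  obtain ⟨W, hW, T, w, d, leaf, a, b, h1, h2, h3, h4, h5, h6, h7, h8, h9⟩ := h
  refine ⟨W, hW, T, w, d, fun v => leaf (e.symm v), a, b, h1, h2, h3,
    h4.comp e.symm.injective, ?_, h6, h7, ?_, ?_⟩
  · intro x
    rw [h5]
    constructor
    · rintro ⟨v, hv⟩
      exact ⟨e v, by simpa using hv⟩
    · rintro ⟨v, hv⟩
      exact ⟨e.symm v, hv⟩
  · intro u v huv
    exact h8 _ _ ((hG _ _).2 (by simpa using huv))
  · intro u v huv
    exact h9 _ _ ((hS _ _).2 (by simpa using huv))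

/-! ### The instance made from a graph -/

/-- Edges inside the block of a vertex. -/
def LE : List (ℕ × ℕ) := [(0, 2), (0, 3), (0, 4), (0, 5), (1, 2), (1, 3), (1, 4), (1, 5), (2, 3),
  (4, 5), (0, 6), (0, 7), (0, 8), (0, 9), (11, 6), (10, 9), (12, 6), (13, 6), (14, 6), (15, 6),
  (12, 10), (13, 10), (14, 10), (15, 10), (12, 11), (13, 11), (14, 11), (15, 11), (16, 9), (17, 9),
  (18, 9), (19, 9), (16, 11), (17, 11), (18, 11), (19, 11), (12, 13), (14, 15), (16, 17), (18, 19)]

/-- Edges between the blocks of adjacent vertices. -/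
def LE' : List (ℕ × ℕ) := [(0, 1), (1, 2), (1, 3), (1, 4), (1, 5)]

/-- Edges between a block and the global vertices. -/
def LG : List (ℕ × ℕ) := [(6, 0), (7, 0), (7, 1), (8, 1), (8, 2), (9, 2), (0, 3), (6, 3), (7, 3),
  (8, 3), (9, 3)]

/-- Edges between global vertices. -/
def LGG : List (ℕ × ℕ) := [(3, 0), (3, 1), (3, 2)]

/-- Forbidden pairs inside a block. -/
def LS : List (ℕ × ℕ) := [(0, 1), (2, 4), (2, 5), (3, 4), (3, 5), (6, 7), (7, 8), (8, 9), (6, 8),
  (6, 9), (6, 10), (10, 11), (11, 9), (12, 14), (12, 15), (13, 14), (13, 15), (16, 18), (16, 19),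
  (17, 18), (17, 19)]

/-- Forbidden pairs between the blocks of adjacent vertices. -/
def LS' : List (ℕ × ℕ) := [(0, 0), (1, 1)]

/-- Forbidden pairs between a block and the global vertices. -/
def LSG : List (ℕ × ℕ) := [(0, 0), (0, 1), (0, 2)]

/-- The vertices of the instance. -/
inductive PV (V0 : Type)
  | loc (x : V0) (t : Fin 20)
  | glob (g : Fin 25)
deriving DecidableEq

variable {V0 : Type} (γ : V0 → V0 → Prop)

/-- Half of the edge relation. -/
def incE : PV V0 → PV V0 → Prop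
  | .loc x s, .loc y t => (x = y ∧ (s.1, t.1) ∈ LE) ∨ (γ x y ∧ (s.1, t.1) ∈ LE')
  | .loc _ s, .glob g => (s.1, g.1) ∈ LG
  | .glob _, .loc _ _ => False
  | .glob g, .glob g' => (g.1, g'.1) ∈ LGG

/-- Half of the relation of the forbidden pairs. -/
def incS : PV V0 → PV V0 → Prop
  | .loc x s, .loc y t => (x = y ∧ (s.1, t.1) ∈ LS) ∨ (γ x y ∧ (s.1, t.1) ∈ LS')
  | .loc _ s, .glob g => (s.1, g.1) ∈ LSG
  | .glob _, .loc _ _ => False
  | .glob _, .glob _ => False

/-- The graph of a relation. -/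
def relG {α : Type} (R : α → α → Prop) : SimpleGraph α where
  Adj u v := u ≠ v ∧ (R u v ∨ R v u)
  symm := ⟨fun _ _ h => ⟨h.1.symm, h.2.symm⟩⟩
  loopless := ⟨fun _ h => h.1 rfl⟩

end Pool.Agent.Q323.PCG
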