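import Pool.Agent.Q323.PCG.Sound
import Pool.Agent.Q323.PCG.Complete
import Pool.Agent.Q323.Base.Box
import Pool.Agent.H692R2.Col
import Pool.Agent.H673R2.HardOn

/-!
# The reduction from 3-colourability to generalized PCG recognition
-/

set_option autoImplicit false

namespace Pool.Agent.Q323.PCG

open Pool.Agent.NPC Pool.Agent.H622R2 Pool.Agent.Q323.Box Pool.Agent.H692R2 Pool.Agent.H673R2

/-- The graph with vertices `0, ..., n - 1` in which two distinct vertices `i`, `j` are adjacent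
when the entry `(i, j)` or the entry `(j, i)` of the Boolean matrix `B` is `true`. -/
def pairG (n : ℕ) (B : List (List Bool)) : SimpleGraph (Fin n) where
  Adj i j := i ≠ j ∧ (entry B i j = true ∨ entry B j i = true)
  symm := ⟨fun _ _ h => ⟨h.1.symm, h.2.symm⟩⟩
  loopless := ⟨fun _ h => h.1 rfl⟩

/-- The pair `(A, B)` of matrices is an instance of generalized PCG recognition: they have the same
number `n` of rows, and no pair of vertices is adjacent both in the graph `G` of `A` and in the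
graph `S` of `B`. -/
def IsInst (I : List (List Bool) × List (List Bool)) : Prop :=
  I.2.length = I.1.length ∧
    ∀ i j, (pairG I.1.length I.1).Adj i j → ¬ (pairG I.1.length I.2).Adj i j

/-- Generalized PCG recognition. -/
def GenPCGMat (I : List (List Bool) × List (List Bool)) : Prop :=
  GenPCG (pairG I.1.length I.1) (pairG I.1.length I.2)

/-- The label at an end of an edge. -/
def lab (E : List (ℕ × ℕ)) (p : ℕ × ℕ) : ℕ :=
  if p.2 = 0 then (E.getD p.1 (0, 0)).1 else (E.getD p.1 (0, 0)).2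

/-- The adjacency of the ends of edges. -/
def gam (E : List (ℕ × ℕ)) (p q : ℕ × ℕ) : Bool :=
  E.any fun e => decide (e.1 = lab E p ∧ e.2 = lab E q ∨ e.1 = lab E q ∧ e.2 = lab E p)

/-- Membership in a fixed list of pairs. -/
def memL (L : List (ℕ × ℕ)) (a b : ℕ) : Bool := decide ((a, b) ∈ L)

/-- The valid labels. -/
def valid (E : List (ℕ × ℕ)) (x : LabN) : Bool :=
  decide (x.1 < 20 ∧ x.2.1 < E.length ∧ x.2.2 < 2 ∨ x.1 = 20 ∧ x.2.1 < 25 ∧ x.2.2 = 0)

/-- Half of the edge test. -/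
def adjE (E : List (ℕ × ℕ)) (u v : LabN) : Bool :=
  decide (u.1 < 20 ∧ v.1 < 20 ∧ u.2 = v.2 ∧ memL LE u.1 v.1 = true ∨
    u.1 < 20 ∧ v.1 < 20 ∧ gam E u.2 v.2 = true ∧ memL LE' u.1 v.1 = true ∨
    u.1 < 20 ∧ v.1 = 20 ∧ memL LG u.1 v.2.1 = true ∨ u.1 = 20 ∧ v.1 = 20 ∧ memL LGG u.2.1 v.2.1 = true)

/-- Half of the test of the forbidden pairs. -/
def adjS (E : List (ℕ × ℕ)) (u v : LabN) : Bool :=
  decide (u.1 < 20 ∧ v.1 < 20 ∧ u.2 = v.2 ∧ memL LS u.1 v.1 = true ∨
    u.1 < 20 ∧ v.1 < 20 ∧ gam E u.2 v.2 = true ∧ memL LS' u.1 v.1 = true ∨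
    u.1 < 20 ∧ v.1 = 20 ∧ memL LSG u.1 v.2.1 = true)

/-- The reduction. -/
def red (E : List (ℕ × ℕ)) : List (List Bool) × List (List Bool) :=
  (boxRed 21 (fun E => E.length + 25) valid adjE E, boxRed 21 (fun E => E.length + 25) valid adjS E)

theorem memL_poly {α : Type} [TEnc α] (L : List (ℕ × ℕ)) {f g : α → ℕ} (hf : Poly f)
    (hg : Poly g) : Poly (fun a => memL L (f a) (g a)) :=
  (Poly.decide_mem (Poly.pair hf hg) (NPC.Poly.const L)).congr fun a => by
    unfold memL
    congr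

attribute [local fun_prop] memL_poly

theorem lab_poly {α : Type} [TEnc α] {f : α → List (ℕ × ℕ)} {g : α → ℕ × ℕ} (hf : Poly f)
    (hg : Poly g) : Poly (fun a => lab (f a) (g a)) := by
  unfold lab
  fun_prop

attribute [local fun_prop] lab_poly

theorem gam_poly {α : Type} [TEnc α] {f : α → List (ℕ × ℕ)} {g h : α → ℕ × ℕ} (hf : Poly f)
    (hg : Poly g) (hh : Poly h) : Poly (fun a => gam (f a) (g a) (h a)) := by
  unfold gam
  refine Poly.any (p := fun a e => decide (e.1 = lab (f a) (g a) ∧ e.2 = lab (f a) (h a) ∨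
    e.1 = lab (f a) (h a) ∧ e.2 = lab (f a) (g a))) hf ?_
  fun_prop

attribute [local fun_prop] gam_poly

theorem red_poly : Poly red := by
  have hN : UPoly (fun E : List (ℕ × ℕ) => E.length + 25) := (UPoly.length Poly.id).add (UPoly.const 25)
  have hv : Poly (fun p : List (ℕ × ℕ) × LabN => valid p.1 p.2) := by
    unfold valid
    fun_prop
  refine Poly.pair (boxRed_poly 21 hN hv ?_) (boxRed_poly 21 hN hv ?_)
  · unfold adjE
    fun_prop
  · unfold adjS
    fun_prop

end Pool.Agent.Q323.PCG
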