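import Pool.Agent.Q323.PCG.Defs

/-!
# A generalized PCG representation of the instance gives a 3-colouring
-/

set_option autoImplicit false

namespace Pool.Agent.Q323.PCG

open Pool.Agent.H221R2.WTree SimpleGraph

section Metric

variable {V : Type} {dd : V → V → ℝ} {m M : ℝ}

/-- The four-point condition. -/
def Four (dd : V → V → ℝ) : Prop := (∀ x y, dd x y = dd y x) ∧
  ∀ x y z u, dd x y + dd z u ≤ dd x z + dd y u ∨ dd x y + dd z u ≤ dd x u + dd y z

/-- Required pairs. -/
def RE (dd : V → V → ℝ) (m M : ℝ) (x y : V) : Prop := m ≤ dd x y ∧ dd x y ≤ M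

/-- Forbidden pairs. -/
def RS (dd : V → V → ℝ) (m M : ℝ) (x y : V) : Prop := dd x y < m ∨ M < dd x y

theorem RE.symm (h4 : Four dd) {x y : V} (h : RE dd m M x y) : RE dd m M y x := by
  unfold RE at *
  rw [h4.1 y x]
  exact h

theorem RS.symm (h4 : Four dd) {x y : V} (h : RS dd m M x y) : RS dd m M y x := by
  unfold RS at *
  rw [h4.1 y x]
  exact h

theorem or_small (h4 : Four dd) {a b p q : V} (h1 : RE dd m M a p) (h2 : RE dd m M b q)
    (h3 : RE dd m M a q) (h5 : RE dd m M b p) (hab : M < dd a b) (hS : RS dd m M p q) :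
    dd p q < m := by
  rcases hS with h | h
  · exact h
  · exfalso
    rcases h4.2 a b p q with h6 | h6 <;> linarith [h1.2, h2.2, h3.2, h5.2]

theorem fs (h4 : Four dd) (hmM : m ≤ M) {p q a b c d : V} (pa : RE dd m M p a)
    (pb : RE dd m M p b) (pc : RE dd m M p c) (pd : RE dd m M p d) (qa : RE dd m M q a)
    (qb : RE dd m M q b) (qc : RE dd m M q c) (qd : RE dd m M q d) (ab : RE dd m M a b)
    (cd : RE dd m M c d) (ac : RS dd m M a c) (ad : RS dd m M a d) (bc : RS dd m M b c)
    (bd : RS dd m M b d) (hS : RS dd m M p q) : dd p q < m := by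
  rcases hS with h | h
  · exact h
  · exfalso
    have e1 := or_small h4 pa qc pc qa h ac
    have e2 := or_small h4 pa qd pd qa h ad
    have e3 := or_small h4 pb qc pc qb h bc
    have e4 := or_small h4 pb qd pd qb h bd
    rcases h4.2 a b c d with h6 | h6 <;> linarith [ab.1, cd.1]

theorem fl (h4 : Four dd) {x y a b : V} (h1 : dd x a < m) (h2 : dd a b < m) (h3 : dd b y < m)
    (xb : RE dd m M x b) (ya : RE dd m M y a) (hS : RS dd m M x y) : M < dd x y := by
  rcases hS with h | h
  · exfalso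
    rcases h4.2 x b a y with h6 | h6
    · linarith [xb.1, ya.1, h4.1 y a]
    · linarith [xb.1, ya.1, h4.1 y a, h4.1 a b]
  · exact h

theorem hub (h4 : Four dd) {v x y z : V} (vx : RE dd m M v x) (vy : RE dd m M v y)
    (vz : RE dd m M v z) (h1 : dd x z < m) (h2 : dd y z < m) (hS : RS dd m M x y) :
    dd x y < m := by
  rcases hS with h | h
  · exact h
  · exfalso
    rcases h4.2 x y v z with h6 | h6
    · linarith [vx.2, vz.1, h4.1 x v]
    · linarith [vy.2, vz.1, h4.1 y v]

end Metric

variable {V0 : Type} {γ : V0 → V0 → Prop}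

theorem colour_of_metric (hγ : ∀ x y, γ x y → γ y x) (hγ' : ∀ x, ¬ γ x x)
    {dd : PV V0 → PV V0 → ℝ} {m M : ℝ} (hmM : m ≤ M) (h4 : Four dd)
    (hE : ∀ u v, (relG (incE γ)).Adj u v → RE dd m M u v)
    (hS : ∀ u v, (relG (incS γ)).Adj u v → RS dd m M u v) :
    ∃ c : V0 → Fin 3, ∀ x y, γ x y → c x ≠ c y := by
  classical
  -- edges
  have E1 : ∀ (x : V0) (s t : Fin 20), ((s.1, t.1) ∈ LE ∨ (t.1, s.1) ∈ LE) → s ≠ t →
      RE dd m M (.loc x s) (.loc x t) := fun x s t h hne =>
    hE _ _ ⟨fun h' => hne (by injection h'), h.elim (fun h => Or.inl (Or.inl ⟨rfl, h⟩))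
      (fun h => Or.inr (Or.inl ⟨rfl, h⟩))⟩
  have E2 : ∀ (x y : V0) (s t : Fin 20), γ x y → ((s.1, t.1) ∈ LE' ∨ (t.1, s.1) ∈ LE') →
      RE dd m M (.loc x s) (.loc y t) := fun x y s t h h2 =>
    hE _ _ ⟨fun h' => by injection h' with h' _; subst h'; exact hγ' x h,
      h2.elim (fun h2 => Or.inl (Or.inr ⟨h, h2⟩)) (fun h2 => Or.inr (Or.inr ⟨hγ _ _ h, h2⟩))⟩
  have E3 : ∀ (x : V0) (s : Fin 20) (g : Fin 25), (s.1, g.1) ∈ LG →
      RE dd m M (.glob g) (.loc x s) := fun x s g h =>
    hE _ _ ⟨fun h' => by injection h', Or.inr h⟩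
  have E4 : ∀ (g g' : Fin 25), (g.1, g'.1) ∈ LGG → g ≠ g' →
      RE dd m M (.glob g) (.glob g') := fun g g' h hne =>
    hE _ _ ⟨fun h' => hne (by injection h'), Or.inl h⟩
  have S1 : ∀ (x : V0) (s t : Fin 20), ((s.1, t.1) ∈ LS ∨ (t.1, s.1) ∈ LS) → s ≠ t →
      RS dd m M (.loc x s) (.loc x t) := fun x s t h hne =>
    hS _ _ ⟨fun h' => hne (by injection h'), h.elim (fun h => Or.inl (Or.inl ⟨rfl, h⟩))
      (fun h => Or.inr (Or.inl ⟨rfl, h⟩))⟩
  have S2 : ∀ (x y : V0) (s t : Fin 20), γ x y → (s.1, t.1) ∈ LS' →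
      RS dd m M (.loc x s) (.loc y t) := fun x y s t h h2 =>
    hS _ _ ⟨fun h' => by injection h' with h' _; subst h'; exact hγ' x h, Or.inl (Or.inr ⟨h, h2⟩)⟩
  have S3 : ∀ (x : V0) (s : Fin 20) (g : Fin 25), (s.1, g.1) ∈ LSG →
      RS dd m M (.loc x s) (.glob g) := fun x s g h =>
    hS _ _ ⟨fun h' => by injection h', Or.inl h⟩
  -- the mark of a vertex is close
  have XN : ∀ x, dd (.loc x 0) (.loc x 1) < m := fun x =>
    fs h4 hmM (E1 x 0 2 (by decide) (by decide)) (E1 x 0 3 (by decide) (by decide))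
      (E1 x 0 4 (by decide) (by decide)) (E1 x 0 5 (by decide) (by decide))
      (E1 x 1 2 (by decide) (by decide)) (E1 x 1 3 (by decide) (by decide))
      (E1 x 1 4 (by decide) (by decide)) (E1 x 1 5 (by decide) (by decide))
      (E1 x 2 3 (by decide) (by decide)) (E1 x 4 5 (by decide) (by decide))
      (S1 x 2 4 (by decide) (by decide)) (S1 x 2 5 (by decide) (by decide))
      (S1 x 3 4 (by decide) (by decide)) (S1 x 3 5 (by decide) (by decide))
      (S1 x 0 1 (by decide) (by decide))
  have NN : ∀ x y, γ x y → dd (.loc x 1) (.loc y 1) < m := fun x y h =>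
    fs h4 hmM (E1 x 1 2 (by decide) (by decide)) (E1 x 1 3 (by decide) (by decide))
      (E1 x 1 4 (by decide) (by decide)) (E1 x 1 5 (by decide) (by decide))
      (E2 y x 1 2 (hγ _ _ h) (by decide)) (E2 y x 1 3 (hγ _ _ h) (by decide))
      (E2 y x 1 4 (hγ _ _ h) (by decide)) (E2 y x 1 5 (hγ _ _ h) (by decide))
      (E1 x 2 3 (by decide) (by decide)) (E1 x 4 5 (by decide) (by decide))
      (S1 x 2 4 (by decide) (by decide)) (S1 x 2 5 (by decide) (by decide))
      (S1 x 3 4 (by decide) (by decide)) (S1 x 3 5 (by decide) (by decide))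
      (S2 x y 1 1 h (by decide))
  have XX : ∀ x y, γ x y → M < dd (.loc x 0) (.loc y 0) := fun x y h =>
    fl h4 (XN x) (NN x y h) (by rw [h4.1]; exact XN y) (E2 x y 0 1 h (by decide))
      (E2 y x 0 1 (hγ _ _ h) (by decide)) (S2 x y 0 0 h (by decide))
  -- the sides of the choice gadget
  have QP : ∀ x, dd (.loc x 6) (.loc x 10) < m := fun x =>
    fs h4 hmM (E1 x 6 12 (by decide) (by decide)) (E1 x 6 13 (by decide) (by decide))
      (E1 x 6 14 (by decide) (by decide)) (E1 x 6 15 (by decide) (by decide))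
      (E1 x 10 12 (by decide) (by decide)) (E1 x 10 13 (by decide) (by decide))
      (E1 x 10 14 (by decide) (by decide)) (E1 x 10 15 (by decide) (by decide))
      (E1 x 12 13 (by decide) (by decide)) (E1 x 14 15 (by decide) (by decide))
      (S1 x 12 14 (by decide) (by decide)) (S1 x 12 15 (by decide) (by decide))
      (S1 x 13 14 (by decide) (by decide)) (S1 x 13 15 (by decide) (by decide))
      (S1 x 6 10 (by decide) (by decide))
  have PP : ∀ x, dd (.loc x 10) (.loc x 11) < m := fun x =>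
    fs h4 hmM (E1 x 10 12 (by decide) (by decide)) (E1 x 10 13 (by decide) (by decide))
      (E1 x 10 14 (by decide) (by decide)) (E1 x 10 15 (by decide) (by decide))
      (E1 x 11 12 (by decide) (by decide)) (E1 x 11 13 (by decide) (by decide))
      (E1 x 11 14 (by decide) (by decide)) (E1 x 11 15 (by decide) (by decide))
      (E1 x 12 13 (by decide) (by decide)) (E1 x 14 15 (by decide) (by decide))
      (S1 x 12 14 (by decide) (by decide)) (S1 x 12 15 (by decide) (by decide))
      (S1 x 13 14 (by decide) (by decide)) (S1 x 13 15 (by decide) (by decide))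
      (S1 x 10 11 (by decide) (by decide))
  have PQ : ∀ x, dd (.loc x 11) (.loc x 9) < m := fun x =>
    fs h4 hmM (E1 x 11 16 (by decide) (by decide)) (E1 x 11 17 (by decide) (by decide))
      (E1 x 11 18 (by decide) (by decide)) (E1 x 11 19 (by decide) (by decide))
      (E1 x 9 16 (by decide) (by decide)) (E1 x 9 17 (by decide) (by decide))
      (E1 x 9 18 (by decide) (by decide)) (E1 x 9 19 (by decide) (by decide))
      (E1 x 16 17 (by decide) (by decide)) (E1 x 18 19 (by decide) (by decide))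
      (S1 x 16 18 (by decide) (by decide)) (S1 x 16 19 (by decide) (by decide))
      (S1 x 17 18 (by decide) (by decide)) (S1 x 17 19 (by decide) (by decide))
      (S1 x 11 9 (by decide) (by decide))
  have QQ : ∀ x, M < dd (.loc x 6) (.loc x 9) := fun x =>
    fl h4 (QP x) (PP x) (PQ x) (E1 x 6 11 (by decide) (by decide)) (E1 x 9 10 (by decide) (by decide)) (S1 x 6 9 (by decide) (by decide))
  -- every vertex is close to some colour
  have key : ∀ x : V0, ∃ i : Fin 3, dd (.loc x 0) (.glob (Fin.castLE (by decide) i)) < m := by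
    intro x
    by_contra hcon
    push Not at hcon
    have big : ∀ g : Fin 25, (0, g.1) ∈ LSG → m ≤ dd (.loc x 0) (.glob g) →
        M < dd (.loc x 0) (.glob g) := by
      intro g hg h
      rcases S3 x 0 g hg with h5 | h5
      · linarith
      · exact h5
    have b0 := big 0 (by decide) (hcon 0)
    have b1 := big 1 (by decide) (hcon 1)
    have b2 := big 2 (by decide) (hcon 2)
    have q01 := or_small h4 (E1 x 0 6 (by decide) (by decide)) (E3 x 7 0 (by decide)) (E1 x 0 7 (by decide) (by decide)) (E3 x 6 0 (by decide)) b0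
      (S1 x 6 7 (by decide) (by decide))
    have q12 := or_small h4 (E1 x 0 7 (by decide) (by decide)) (E3 x 8 1 (by decide)) (E1 x 0 8 (by decide) (by decide)) (E3 x 7 1 (by decide)) b1
      (S1 x 7 8 (by decide) (by decide))
    have q23 := or_small h4 (E1 x 0 8 (by decide) (by decide)) (E3 x 9 2 (by decide)) (E1 x 0 9 (by decide) (by decide)) (E3 x 8 2 (by decide)) b2
      (S1 x 8 9 (by decide) (by decide))
    have q02 := hub h4 (E3 x 6 3 (by decide)) (E3 x 8 3 (by decide)) (E3 x 7 3 (by decide)) q01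
      (by rw [h4.1]; exact q12) (S1 x 6 8 (by decide) (by decide))
    have q03 := hub h4 (E3 x 6 3 (by decide)) (E3 x 9 3 (by decide)) (E3 x 8 3 (by decide)) q02
      (by rw [h4.1]; exact q23) (S1 x 6 9 (by decide) (by decide))
    linarith [QQ x]
  choose c hc using key
  refine ⟨c, fun x y hxy hcc => ?_⟩
  have h1 := hc x
  have h2 := hc y
  rw [← hcc] at h2
  have hR : RE dd m M (.glob 3) (.glob (Fin.castLE (by decide) (c x))) := by
    generalize c x = i
    fin_cases i
    · exact E4 3 0 (by decide) (by decide)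
    · exact E4 3 1 (by decide) (by decide)
    · exact E4 3 2 (by decide) (by decide)
  have h3 := hub h4 (E3 x 0 3 (by decide)) (E3 y 0 3 (by decide)) hR h1 h2
    (S2 x y 0 0 hxy (by decide))
  linarith [XX x y hxy]

/-- A generalized PCG representation gives a 3-colouring. -/
theorem colour_of_genPCG (hγ : ∀ x y, γ x y → γ y x) (hγ' : ∀ x, ¬ γ x x)
    (h : GenPCG (relG (incE γ)) (relG (incS γ))) :
    ∃ c : V0 → Fin 3, ∀ x y, γ x y → c x ≠ c y := by
  obtain ⟨W, hW, T, w, d, leaf, a, b, h1, h2, h3, h4, h5, h6, h7, h8, h9⟩ := h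
  have hwt : WT T w d := ⟨h1, h2, h3⟩
  refine colour_of_metric hγ hγ' (dd := fun u v => d (leaf u) (leaf v)) h7 ⟨?_, ?_⟩ h8 ?_
  · intro x y
    exact hwt.symm _ _
  · intro x y z u
    exact hwt.four' _ _ _ _
  · intro u v huv
    have := h9 u v huv
    unfold RS
    by_contra hcon
    push Not at hcon
    exact this hcon

end Pool.Agent.Q323.PCG
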